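import Mathlib
import Pool.Agent.Q210.BR.Defs

/-!
# Irreducible branching random walks with finitely many fixed points
-/

open Filter Topology Set MeasureTheory
open scoped ENNReal
open Pool.Agent.H632R3.Branch Pool.Agent.Q210.BR

namespace Pool.Agent.Results.MP_087ef2_pr.IrreducibleFinite

noncomputable section

variable {X : Type}

/-- The first-moment matrix `m_{xy} = ∑_f f(y) μ_x(f)`. -/
def m (μ : X → PMF (X →₀ ℕ)) (x y : X) : ℝ≥0∞ := ∑' f : X →₀ ℕ, (f y : ℝ≥0∞) * μ x f

/-- Irreducibility: any two sites are joined by a finite path of steps with `m > 0`. -/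
def Irreducible (μ : X → PMF (X →₀ ℕ)) : Prop :=
  ∀ x y : X, Relation.ReflTransGen (fun u v => 0 < m μ u v) x y

/-- The extinction probability vector
`q(x, A) = 1 - P(limsup_n ∑_{y ∈ A} η_n(y) > 0)`. -/
def q (μ : X → PMF (X →₀ ℕ)) (A : Set X) : X → ℝ := fun x =>
  1 - (law μ).real {ω | 0 < limsup (fun n => (count A (pop x ω n) : ℕ∞)) atTop}

/-- The set of extinction probability vectors. -/
def E (μ : X → PMF (X →₀ ℕ)) : Set (X → ℝ) := {z | ∃ A : Set X, z = q μ A}

/-- The set of fixed points of the generating function `gen μ` in `[0,1]^X`. -/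
def F (μ : X → PMF (X →₀ ℕ)) : Set (X → ℝ) := {z | (∀ x, 0 ≤ z x ∧ z x ≤ 1) ∧ gen μ z = z}

theorem q_eq [Countable X] (μ : X → PMF (X →₀ ℕ)) (A : Set X) : q μ A = beta μ A := by
  funext x
  have h1 : {ω : Sample X | 0 < limsup (fun n => (count A (pop x ω n) : ℕ∞)) atTop} =
      (Dev x A)ᶜ := by
    rw [← ev_zero_eq x A]
    ext ω
    simp only [mem_ofPred_eq, mem_compl_iff]
    constructor
    · intro h hev
      have h2 : limsup (fun n => (count A (pop x ω n) : ℕ∞)) atTop =
          limsup (fun _ => (0 : ℕ∞)) (atTop : Filter ℕ) := by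
        refine limsup_congr (hev.mono fun n hn => ?_)
        rw [hn]; rfl
      rw [h2, limsup_const] at h
      exact lt_irrefl _ h
    · intro h
      have h2 : ∃ᶠ n in atTop, (1 : ℕ∞) ≤ (count A (pop x ω n) : ℕ∞) := by
        intro hcon
        apply h
        refine hcon.mono fun n hn => ?_
        by_contra hne
        apply hn
        exact_mod_cast Nat.one_le_iff_ne_zero.mpr hne
      exact lt_of_lt_of_le (by norm_num) (le_limsup_of_frequently_le h2)
  show 1 - (law μ).real _ = (law μ).real (Dev x A)
  rw [h1, probReal_compl_eq_one_sub (Dev_meas x A)]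
  ring

/-- For every irreducible branching random walk, if the set `F_G` of fixed points of the generating
function is finite then `F_G = E_G`, and moreover both sets are then `{q̄, 1}`. -/
theorem result (X : Type) [Countable X] (μ : X → PMF (X →₀ ℕ)) (hirr : Irreducible μ)
    (hfin : (F μ).Finite) : F μ = E μ ∧ F μ = {q μ univ, 1} := by
  have hF : F μ = FixG μ := rfl
  have hcard : Cardinal.mk (FixG μ) ≠ Cardinal.continuum := by
    intro h
    have h4 : Cardinal.mk (FixG μ) < Cardinal.aleph0 := Cardinal.lt_aleph0_iff_set_finite.mpr hfin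
    rw [h] at h4
    exact absurd h4 (not_lt.mpr Cardinal.aleph0_le_continuum)
  have hstep : ∀ s ∈ FixG μ, ∀ x y, 0 < m μ x y → s x = 1 → s y = 1 := by
    intro s hs x y hxy hx
    refine child_one μ hs hx ?_
    by_contra hcon
    push Not at hcon
    have : m μ x y = 0 := by
      unfold m
      rw [ENNReal.tsum_eq_zero]
      intro f
      by_cases hf : f y = 0
      · rw [hf]; simp
      · rw [hcon f hf, mul_zero]
    exact absurd this hxy.ne'
  have hall : ∀ s ∈ FixG μ, ∀ x, s x = 1 → s = 1 := by
    intro s hs x hx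
    funext y
    have h := hirr x y
    induction h with
    | refl => exact hx
    | tail _ hbc ih => exact hstep s hs _ _ hbc ih
  have hcase : ∀ s ∈ FixG μ, s = q μ univ ∨ s = 1 := by
    intro s hs
    by_cases h1 : ∃ x, s x = 1
    · obtain ⟨x, hx⟩ := h1
      exact Or.inr (hall s hs x hx)
    · left
      push Not at h1
      have h2 : {y | s y < 1} = univ := by
        ext y
        simp only [mem_ofPred_eq, mem_univ, iff_true]
        exact lt_of_le_of_ne (hs.1 y).2 (h1 y)
      have h3 := eq_beta μ hcard hs
      rw [h2] at h3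
      rw [q_eq]
      exact h3
  have hone : (1 : X → ℝ) = q μ ∅ := by
    funext x
    rw [q_eq]
    have : Dev x (∅ : Set X) = univ := by
      rw [← ev_zero_eq x ∅]
      ext ω
      simp [count_eq_zero]
    show (1 : ℝ) = (law μ).real (Dev x ∅)
    rw [this]
    simp
  constructor
  · refine Subset.antisymm (fun s hs => ?_) ?_
    · rcases hcase s hs with h | h
      · exact ⟨univ, h⟩
      · exact ⟨∅, by rw [h, hone]⟩
    · rintro s ⟨A, rfl⟩
      rw [hF, q_eq]
      exact beta_mem μ A
  · refine Subset.antisymm (fun s hs => ?_) ?_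
    · rcases hcase s hs with h | h
      · exact Or.inl h
      · exact Or.inr h
    · rintro s (h | h)
      · rw [h, hF, q_eq]; exact beta_mem μ univ
      · rw [h]; exact one_mem μ

end

end Pool.Agent.Results.MP_087ef2_pr.IrreducibleFinite
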